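import Pool.Agent.U527.Lc.Tubes

set_option autoImplicit false

/-!
# MP_850839: the tube inequality for families with few positions, without loss in `δ`

Work in `ℝ^n = ℝ^d × ℝ`, `n = d + 1 ≥ 3`, with its Euclidean norm (`Space d`).  The axis of a tube with
direction `dir v`, i.e. parallel to `(v, 1)`, meets the hyperplane of height `0` in a point `(β, 0)`, the
position of the tube.

1. Arbitrary families.  Suppose that the positions lie in `N` balls of radius `K δ` (which of them
   belongs to a tube is an arbitrary function of its direction; there are no other conditions).  Then the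
   inequality of the problem holds, for all `q > n/(n-1)` and for all `δ`-tubes with `δ`-separated
   directions (`|v| ≤ 1`) and centres at height at most `S`, with the constant
   `C (N^(1-1/d) (1 + log N)^2)^(1-1/q)`, `C = C(n, q, K, S)`.  There is no loss in `δ`.  (The sum over the
   balls would give `N^(1-1/q)`.)
2. More generally, the constant is `C (1 + M)^(1-1/q)` if the positions lie within `K δ` of a continuous
   curve of order at most `M`: for every direction `η`, almost every hyperplane orthogonal to `η` meets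
   it in at most `M` points.  Examples are the polynomial curves of degree at most `M`, and, for
   `M = C N^(1-1/d) (1 + log N)^2`, a suitable polygon through any given `N` points: this is the theorem of
   Welzl and Chazelle–Welzl on spanning paths with low crossing number (proved in `U527/Lc`).
-/

open MeasureTheory Set ENNReal NNReal

namespace Pool.Agent.Results.MP_850839_an.FewPositions

/-- Euclidean space `ℝ^d`. -/
abbrev Vec (d : ℕ) : Type := EuclideanSpace ℝ (Fin d)

/-- Euclidean space `ℝ^{d+1}`, written as `ℝ^d × ℝ` with the Euclidean norm. -/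
abbrev Space (d : ℕ) : Type := WithLp 2 (Vec d × ℝ)

/-- The closed tube of length `1` and radius `δ` with centre `a` and axis direction `e`. -/
def tube {d : ℕ} (δ : ℝ) (e a : Space d) : Set (Space d) :=
  {y | |inner ℝ (y - a) e| ≤ 1 / 2 ∧ ‖(y - a) - (inner ℝ (y - a) e : ℝ) • e‖ ≤ δ}

/-- The unit vector `(v, 1)/√(1+|v|²)`. -/
noncomputable def dir {d : ℕ} (v : Vec d) : Space d :=
  (√(1 + ‖v‖ ^ 2))⁻¹ • WithLp.toLp 2 (v, (1:ℝ))

/-- The sum of the indicators of the `δ`-tubes with directions `dir (v i)` whose axes pass through the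
points `(β i, 0)` and whose centres have height `s i`. -/
noncomputable def tubeSum {d : ℕ} {ι : Type} [Fintype ι] (δ : ℝ) (v β : ι → Vec d) (s : ι → ℝ)
    (y : Space d) : ℝ :=
  ∑ i, (tube δ (dir (v i)) (WithLp.toLp 2 (β i + s i • v i, s i))).indicator (fun _ => (1 : ℝ)) y

/-- The curve `γ : [0, 1] → ℝ^d` has order at most `M`: for every vector `η`, almost every hyperplane
`{x | x · η = c}` meets it for at most `M` parameters. -/
def OrderLE {d : ℕ} (M : ℕ) (γ : ℝ → Vec d) : Prop :=
  ∀ η : Vec d, ∀ᵐ c : ℝ, {s | s ∈ Icc (0:ℝ) 1 ∧ inner ℝ (γ s) η = c}.encard ≤ M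

/-- The tube inequality in the full range, without loss in `δ`, for families with `N` positions and
for families through a curve of order `M`. -/
theorem result (d : ℕ) (hd : 2 ≤ d) (q : ℝ) (hq : ((d : ℝ) + 1) / d < q) (K S : ℝ≥0) :
    ∃ C : ℝ, 0 < C ∧ ∀ δ : ℝ, 0 < δ → δ < 1 →
      ∀ (ι : Type) [Fintype ι] (v β : ι → Vec d) (s : ι → ℝ),
        (∀ i, ‖v i‖ ≤ 1) → (∀ i, |s i| ≤ S) → (∀ i j, i ≠ j → δ ≤ ‖dir (v i) - dir (v j)‖) →
        -- the positions lie in `N` balls of radius `K δ`
        (∀ (N : ℕ) (P : Finset (Vec d)), 1 ≤ N → P.card ≤ N →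
          (∀ i, ∃ x ∈ P, ‖β i - x‖ ≤ K * δ) →
          eLpNorm (tubeSum δ v β s) (ENNReal.ofReal q) volume
            ≤ ENNReal.ofReal (C * ((N:ℝ) ^ (1 - 1 / (d:ℝ)) * (1 + Real.log N) ^ 2) ^ (1 - 1 / q) *
                δ ^ ((d : ℝ) / q) * (Fintype.card ι : ℝ) ^ (1 - 1 / (q * d)))) ∧
        -- the positions lie within `K δ` of a curve of order `M`
        (∀ (M : ℕ) (γ : ℝ → Vec d), ContinuousOn γ (Icc 0 1) → OrderLE M γ →
          (∀ i, ∃ t ∈ Icc (0:ℝ) 1, ‖β i - γ t‖ ≤ K * δ) →
          eLpNorm (tubeSum δ v β s) (ENNReal.ofReal q) volume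
            ≤ ENNReal.ofReal (C * (1 + M : ℝ) ^ (1 - 1 / q) *
                δ ^ ((d : ℝ) / q) * (Fintype.card ι : ℝ) ^ (1 - 1 / (q * d)))) := by
  obtain ⟨C₁, hC₁, h₁⟩ := Pool.Agent.U527.Lc.tubes_few d hd q hq K S
  obtain ⟨C₂, hC₂, h₂⟩ := Pool.Agent.U527.Crv.tubes d hd q hq K S
  refine ⟨C₁ + C₂, by positivity, ?_⟩
  intro δ hδ hδ1 ι _ v β s hv hs hsep
  constructor
  · intro N P hN hPN hβ
    refine (h₁ N P hN hPN δ hδ hδ1 ι v β s hv hs hβ hsep).trans ?_
    apply ENNReal.ofReal_le_ofReal
    have hlog : 0 ≤ Real.log (N:ℝ) := Real.log_natCast_nonneg N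
    gcongr
    linarith
  · intro M γ hγ hord hβ
    choose τ hτ1 hτ2 using hβ
    refine (h₂ M γ hγ hord δ hδ hδ1 ι v β s τ hv hs hτ1 hτ2 hsep).trans ?_
    apply ENNReal.ofReal_le_ofReal
    gcongr
    linarith

end Pool.Agent.Results.MP_850839_an.FewPositions
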