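import Pool.Agent.U530.KX.Quant
import Pool.Agent.U530.PB.Tub
set_option autoImplicit false

/-!
# The growth of the best constant in the Kakeya tube inequality: bounded, or a power

Let `n ≥ 3`, and for `q ≥ n/(n-1)` let `A_q(δ)` be the best constant in the inequality of Q1 at the
scale `δ`, so that

  `‖∑ 1_T‖_q ≤ A_q(δ) δ^((n-1)/q) (#T)^(1 - 1/(q(n-1)))`

for all families of `δ`-tubes with `δ`-separated orientations.  Intermediate growth is impossible:
there is a threshold `q₀`, `n/(n-1) ≤ q₀ ≤ (n+2)/n`, such that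

1. for `q > q₀` the constants `A_q(δ)` are bounded (the inequality of Q1 holds at `q`);
2. at `q = q₀` they grow slower than every power of `1/δ`;
3. for `n/(n-1) ≤ q < q₀` they grow at least like a power of `1/δ`, with an explicit exponent: the
   inequality with the factor `C δ^(-γ)` is false for all `γ < (q₀ - q) / (7 n q)` and all `C`.

The full families alone, those with `#T ≥ (20 n)^(1-n) δ^(1-n)`, already decide everything:

4. for them the inequality with the factor `C δ^(-γ)` is false whenever `q ≥ n/(n-1)` and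
   `q + 7n(γ q + (n-1)(q-1) - 1) < q₀`; in particular it is false at the critical exponent
   `q = n/(n-1)` for all `γ < (q₀ - q) / (7 n q)`, as in 3.
5. Q1 in dimension `n` is equivalent to each of: `q₀ = n/(n-1)`; the inequality for the full families
   without a loss at all exponents `q > n/(n-1)`; the inequality for the full families at the single
   exponent `n/(n-1)` with arbitrarily small power losses.

So one fixed loss `δ^(-γ)` at one exponent `q`, known for the full families only, implies the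
inequality WITHOUT a loss for ALL families, at all exponents larger than
`q + 7n(γ q + (n-1)(q-1) - 1)`.
-/

open MeasureTheory Set Metric
open scoped ENNReal NNReal

namespace Pool.Agent.Results.MP_850839_an.GrowthDichotomy

/-- `ℝⁿ`. -/
abbrev E (n : ℕ) := EuclideanSpace ℝ (Fin n)

/-- The `δ`-tube with centre `a` and orientation `e` (a unit vector): the closed cylinder of length
`1` and radius `δ`. -/
def tube {n : ℕ} (δ : ℝ) (a e : E n) : Set (E n) :=
  {y | |inner ℝ (y - a) e| ≤ 1 / 2 ∧ ‖(y - a) - (inner ℝ (y - a) e) • e‖ ≤ δ}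

/-- The tube inequality at the exponent `q` with the factor `C δ^(-γ)`:
`‖∑_T 1_T‖_q ≤ C δ^(-γ) δ^((n-1)/q) (#T)^(1 - 1/(q(n-1)))`, for all `0 < δ < 1` and all finite
families of `δ`-tubes with `δ`-separated orientations.  `Tubes n q 0 C` is the inequality of Q1 with
the constant `C`. -/
def Tubes (n : ℕ) (q γ C : ℝ) : Prop :=
  ∀ δ : ℝ, 0 < δ → δ < 1 → ∀ (ι : Type) [Fintype ι] (a e : ι → E n), (∀ i, ‖e i‖ = 1) →
    (∀ i j, i ≠ j → δ ≤ ‖e i - e j‖) →
    (∫⁻ x, (∑ i, (tube δ (a i) (e i)).indicator (fun _ => (1 : ℝ≥0∞)) x) ^ q) ^ (1 / q) ≤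
      ENNReal.ofReal (C * δ ^ (-γ) * δ ^ (((n : ℝ) - 1) / q) *
        (Fintype.card ι : ℝ) ^ (1 - 1 / (q * ((n : ℝ) - 1))))

/-- The tube inequality at the exponent `q` with the factor `C δ^(-γ)`, only for the full families:
those with at least `(20 n)^(1-n) δ^(1-n)` tubes. -/
def FullTubes (n : ℕ) (q γ C : ℝ) : Prop :=
  ∀ δ : ℝ, 0 < δ → δ < 1 → ∀ (ι : Type) [Fintype ι] (a e : ι → E n), (∀ i, ‖e i‖ = 1) →
    (∀ i j, i ≠ j → δ ≤ ‖e i - e j‖) →
    (1 / (20 * (n : ℝ))) ^ (n - 1) ≤ δ ^ (n - 1) * (Fintype.card ι : ℝ) →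
    (∫⁻ x, (∑ i, (tube δ (a i) (e i)).indicator (fun _ => (1 : ℝ≥0∞)) x) ^ q) ^ (1 / q) ≤
      ENNReal.ofReal (C * δ ^ (-γ) * δ ^ (((n : ℝ) - 1) / q) *
        (Fintype.card ι : ℝ) ^ (1 - 1 / (q * ((n : ℝ) - 1))))

section proofs

open Pool.Agent.Y254 (mult)
open Pool.Agent.Y254.EL (EuL EuF euL_of_euF)
open Pool.Agent.U530.KX (euF_of_euL_quant)

variable {d : ℕ}

theorem tubes_of_int {q γ K : ℝ} (hd : 1 ≤ d) (hq : 0 < q) (hK : 0 < K)
    (h : ∀ δ : ℝ, 0 < δ → δ < 1 → ∀ (ι : Type) [Fintype ι] (a e : ι → E (d + 1)),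
      (∀ i, ‖e i‖ = 1) → (∀ i j, i ≠ j → δ ≤ ‖e i - e j‖) →
      ∫⁻ x, mult (fun i => Pool.Agent.W46.KK.tube δ (a i) (e i)) x ^ q ≤
        ENNReal.ofReal (K * (δ ^ (-(γ * q)) *
          (δ ^ d * (Fintype.card ι : ℝ) ^ (q - 1 / (d : ℝ)))))) :
    Tubes (d + 1) q γ (K ^ (1 / q)) := by
  have hd0 : (0 : ℝ) < d := by exact_mod_cast hd
  intro δ hδ hδ1 ι _ a e he hsep
  have h1 := ENNReal.rpow_le_rpow (h δ hδ hδ1 ι a e he hsep) (by positivity : 0 ≤ 1 / q)
  have hN : (0 : ℝ) ≤ Fintype.card ι := Nat.cast_nonneg _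
  have e1 : (K * (δ ^ (-(γ * q)) * (δ ^ d * (Fintype.card ι : ℝ) ^ (q - 1 / (d : ℝ))))) ^ (1 / q) =
      K ^ (1 / q) * δ ^ (-γ) * δ ^ ((((d + 1 : ℕ) : ℝ) - 1) / q) *
        (Fintype.card ι : ℝ) ^ (1 - 1 / (q * (((d + 1 : ℕ) : ℝ) - 1))) := by
    have e2 : (((d + 1 : ℕ) : ℝ) - 1) = d := by push_cast; ring
    rw [e2, Real.mul_rpow hK.le (by positivity), Real.mul_rpow (by positivity) (by positivity),
      Real.mul_rpow (by positivity) (by positivity), ← Real.rpow_mul hδ.le, ← Real.rpow_mul hN,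
      ← Real.rpow_natCast, ← Real.rpow_mul hδ.le]
    have e3 : -(γ * q) * (1 / q) = -γ := by field_simp
    have e4 : (d : ℝ) * (1 / q) = d / q := by ring
    have e5 : (q - 1 / (d : ℝ)) * (1 / q) = 1 - 1 / (q * d) := by field_simp
    rw [e3, e4, e5]
    ring
  rw [ENNReal.ofReal_rpow_of_nonneg (by positivity) (by positivity), e1] at h1
  exact h1

theorem int_of_one {q γ C δ : ℝ} (hd : 1 ≤ d) (hq : 0 < q) (hC : 0 < C) (hδ : 0 < δ) {N : ℝ}
    (hN : 0 ≤ N) {I : ℝ≥0∞}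
    (h : I ^ (1 / q) ≤ ENNReal.ofReal (C * δ ^ (-γ) * δ ^ ((((d + 1 : ℕ) : ℝ) - 1) / q) *
        N ^ (1 - 1 / (q * (((d + 1 : ℕ) : ℝ) - 1))))) :
    I ≤ ENNReal.ofReal (C ^ q * (δ ^ (-(γ * q)) * (δ ^ d * N ^ (q - 1 / (d : ℝ))))) := by
  have hd0 : (0 : ℝ) < d := by exact_mod_cast hd
  have h1 := ENNReal.rpow_le_rpow h hq.le
  rw [← ENNReal.rpow_mul, one_div, inv_mul_cancel₀ hq.ne', ENNReal.rpow_one,
    ENNReal.ofReal_rpow_of_nonneg (by positivity) hq.le] at h1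
  have e1 : (C * δ ^ (-γ) * δ ^ ((((d + 1 : ℕ) : ℝ) - 1) / q) *
        N ^ (1 - 1 / (q * (((d + 1 : ℕ) : ℝ) - 1)))) ^ q =
      C ^ q * (δ ^ (-(γ * q)) * (δ ^ d * N ^ (q - 1 / (d : ℝ)))) := by
    have e2 : (((d + 1 : ℕ) : ℝ) - 1) = d := by push_cast; ring
    rw [e2, Real.mul_rpow (by positivity) (by positivity),
      Real.mul_rpow (by positivity) (by positivity),
      Real.mul_rpow hC.le (by positivity), ← Real.rpow_mul hδ.le, ← Real.rpow_mul hδ.le,
      ← Real.rpow_mul hN]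
    have e3 : (d : ℝ) / q * q = d := by field_simp
    have e5 : (1 - 1 / (q * (d : ℝ))) * q = q - 1 / d := by field_simp
    rw [e3, e5, Real.rpow_natCast, neg_mul]
    ring
  rw [e1] at h1
  exact h1

theorem int_of_tubes {q γ C : ℝ} (hd : 1 ≤ d) (hq : 0 < q) (hC : 0 < C)
    (h : Tubes (d + 1) q γ C) (δ : ℝ) (hδ : 0 < δ) (hδ1 : δ < 1) (ι : Type) [Fintype ι]
    (a e : ι → E (d + 1)) (he : ∀ i, ‖e i‖ = 1) (hsep : ∀ i j, i ≠ j → δ ≤ ‖e i - e j‖) :
    ∫⁻ x, mult (fun i => Pool.Agent.W46.KK.tube δ (a i) (e i)) x ^ q ≤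
      ENNReal.ofReal (C ^ q * (δ ^ (-(γ * q)) *
        (δ ^ d * (Fintype.card ι : ℝ) ^ (q - 1 / (d : ℝ))))) :=
  int_of_one hd hq hC hδ (Nat.cast_nonneg _) (h δ hδ hδ1 ι a e he hsep)

/-- From the full families to all families. -/
theorem full_removal {q q' γ C : ℝ} (hd : 2 ≤ d) (hq : 1 + 1 / (d : ℝ) ≤ q) (hγ : 0 ≤ γ)
    (hγq : q + 7 * ((d : ℝ) + 1) * (γ * q + (d * (q - 1) - 1)) < q')
    (h : FullTubes (d + 1) q γ C) : ∃ C : ℝ, 0 < C ∧ EuF d q' C := by
  have hd0 : (0 : ℝ) < d := by exact_mod_cast (by omega : 0 < d)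
  have hinv : 0 < 1 / (d : ℝ) := by positivity
  have hq0 : 0 < q := by linarith
  have hm : 0 < max C 1 := lt_of_lt_of_le one_pos (le_max_right _ _)
  refine Pool.Agent.U530.PB.euF_of_full hd hq (by positivity) (C := max C 1 ^ q) (by positivity) ?_ hγq
  intro δ hδ hδ1 ι _ a e he hsep hfull
  refine int_of_one (by omega) hq0 hm hδ (Nat.cast_nonneg _) ?_
  refine (h δ hδ hδ1 ι a e he hsep ?_).trans (ENNReal.ofReal_le_ofReal ?_)
  · rw [Nat.add_sub_cancel]
    push_cast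
    exact hfull
  · gcongr
    exact le_max_left _ _

theorem tubes_mono {n : ℕ} {q γ C C' : ℝ} (hCC : C ≤ C') (h : Tubes n q γ C) :
    Tubes n q γ C' := by
  intro δ hδ hδ1 ι _ a e he hsep
  refine (h δ hδ hδ1 ι a e he hsep).trans (ENNReal.ofReal_le_ofReal ?_)
  gcongr

theorem tubes_of_euF {q C : ℝ} (hd : 1 ≤ d) (hq : 0 < q) (hC : 0 < C) (h : EuF d q C) :
    Tubes (d + 1) q 0 (C ^ (1 / q)) := by
  refine tubes_of_int hd hq hC ?_
  intro δ hδ hδ1 ι _ a e he hsep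
  refine (h δ hδ hδ1 ι a e he hsep).trans (le_of_eq ?_)
  rw [zero_mul, neg_zero, Real.rpow_zero, one_mul]

theorem euL_of_tubes {q γ C : ℝ} (hd : 1 ≤ d) (hq : 0 < q) (h : Tubes (d + 1) q γ C) :
    ∃ K : ℝ, 0 ≤ K ∧ EuL d q (γ * q) K := by
  have h1 := tubes_mono (le_max_left C 1) h
  have hm : 0 < max C 1 := lt_of_lt_of_le one_pos (le_max_right _ _)
  exact ⟨max C 1 ^ q, by positivity, fun δ hδ hδ1 ι _ a e he hsep =>
    int_of_tubes hd hq hm h1 δ hδ hδ1 ι a e he hsep⟩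

/-- Quantitative removal of the loss. -/
theorem removal {q q' γ C : ℝ} (hd : 2 ≤ d) (hq : 1 + 1 / (d : ℝ) ≤ q) (hqq : q < q') (hγ : 0 ≤ γ)
    (hγq : 7 * ((d : ℝ) + 1) * (γ * q) < q' - q) (h : Tubes (d + 1) q γ C) :
    ∃ C : ℝ, 0 < C ∧ Tubes (d + 1) q' 0 C := by
  have hd0 : (0 : ℝ) < d := by exact_mod_cast (by omega : 0 < d)
  have hinv : 0 < 1 / (d : ℝ) := by positivity
  have hq0 : 0 < q := by linarith
  obtain ⟨K, hK, hE⟩ := euL_of_tubes (by omega) hq0 h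
  obtain ⟨C', hC', hF⟩ := euF_of_euL_quant hd hq hqq (by positivity) hγq hK hE
  exact ⟨_, by positivity, tubes_of_euF (by omega) (by linarith) hC' hF⟩

end proofs

/-- **Bounded or power growth.**  For every `n ≥ 3` there is a threshold `q₀` such that the best
constant in the tube inequality is bounded for `q > q₀`, grows slower than every power of `1/δ` at
`q₀`, and grows at least like an explicit power for `n/(n-1) ≤ q < q₀`, near `n/(n-1)` even for the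
full families; Q1 in dimension `n` says that `q₀ = n/(n-1)`. -/
theorem result (n : ℕ) (hn : 3 ≤ n) : ∃ q₀ : ℝ, (n : ℝ) / ((n : ℝ) - 1) ≤ q₀ ∧
    q₀ ≤ ((n : ℝ) + 2) / n ∧
    -- (1) no loss above the threshold
    (∀ q : ℝ, q₀ < q → ∃ C : ℝ, 0 < C ∧ Tubes n q 0 C) ∧
    -- (2) arbitrarily small power losses at the threshold
    (∀ ε : ℝ, 0 < ε → ∃ C : ℝ, 0 < C ∧ Tubes n q₀ ε C) ∧
    -- (3) a power loss below the threshold
    (∀ q γ : ℝ, (n : ℝ) / ((n : ℝ) - 1) ≤ q → q < q₀ → 0 ≤ γ → γ < (q₀ - q) / (7 * n * q) →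
      ∀ C : ℝ, ¬ Tubes n q γ C) ∧
    -- (4) a power loss for the full families
    (∀ q γ : ℝ, (n : ℝ) / ((n : ℝ) - 1) ≤ q → 0 ≤ γ →
      q + 7 * n * (γ * q + (((n : ℝ) - 1) * (q - 1) - 1)) < q₀ → ∀ C : ℝ, ¬ FullTubes n q γ C) ∧
    -- (5) Q1 in dimension `n`
    List.TFAE [
      ∀ q : ℝ, (n : ℝ) / ((n : ℝ) - 1) < q → ∃ C : ℝ, 0 < C ∧ Tubes n q 0 C,
      q₀ = (n : ℝ) / ((n : ℝ) - 1),
      ∀ q : ℝ, (n : ℝ) / ((n : ℝ) - 1) < q → ∃ C : ℝ, 0 < C ∧ FullTubes n q 0 C,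
      ∀ ε : ℝ, 0 < ε → ∃ C : ℝ, 0 < C ∧ FullTubes n ((n : ℝ) / ((n : ℝ) - 1)) ε C] := by
  obtain ⟨d, rfl⟩ : ∃ d, n = d + 1 := ⟨n - 1, by omega⟩
  have hd : 2 ≤ d := by omega
  have hdR : (2 : ℝ) ≤ d := by exact_mod_cast hd
  have hd0 : (0 : ℝ) < d := by linarith
  have hinv : 0 < 1 / (d : ℝ) := by positivity
  have e1 : ((d + 1 : ℕ) : ℝ) / (((d + 1 : ℕ) : ℝ) - 1) = 1 + 1 / (d : ℝ) := by
    push_cast
    rw [show (d : ℝ) + 1 - 1 = d by ring]
    field_simp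
  have e2 : ((d + 1 : ℕ) : ℝ) = (d : ℝ) + 1 := by push_cast; ring
  have e4 : ((d + 1 : ℕ) : ℝ) - 1 = (d : ℝ) := by push_cast; ring
  rw [e1, e4, e2]
  set S : Set ℝ := {q | 1 + 1 / (d : ℝ) ≤ q ∧ ∃ C : ℝ, 0 < C ∧ Tubes (d + 1) q 0 C} with hS
  have hw : ∀ q : ℝ, 1 + 2 / ((d : ℝ) + 1) < q → q ∈ S := by
    intro q hq
    have h12 : 1 / (d : ℝ) ≤ 2 / ((d : ℝ) + 1) := by
      rw [div_le_div_iff₀ hd0 (by positivity)]
      linarith
    obtain ⟨A, hA, hF⟩ := Pool.Agent.Y254.wolff (n := d + 1) (by omega) (q := q) (by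
      rw [e2]; exact hq)
    refine ⟨by linarith, A ^ (1 / q), by positivity, tubes_of_euF (by omega) (by linarith) hA ?_⟩
    intro δ hδ hδ1 ι _ a e he hsep
    have h2 := hF δ hδ hδ1 a e he hsep
    have e3 : (((d + 1 : ℕ) : ℝ) - 1) = d := by push_cast; ring
    rw [e3, Nat.add_sub_cancel] at h2
    exact h2
  have hne : S.Nonempty := ⟨1 + 2 / ((d : ℝ) + 1) + 1, hw _ (by linarith)⟩
  have hbd : BddBelow S := ⟨1 + 1 / (d : ℝ), fun q hq => hq.1⟩
  have hlow : 1 + 1 / (d : ℝ) ≤ sInf S := le_csInf hne fun q hq => hq.1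
  have hup : sInf S ≤ 1 + 2 / ((d : ℝ) + 1) := by
    by_contra hcon
    rw [not_le] at hcon
    obtain ⟨x, hx1, hx2⟩ := exists_between hcon
    exact absurd (csInf_le hbd (hw x hx1)) (not_le.2 hx2)
  have h1 : ∀ q : ℝ, sInf S < q → ∃ C : ℝ, 0 < C ∧ Tubes (d + 1) q 0 C := by
    intro q hq
    obtain ⟨s, hs, hsq⟩ := exists_lt_of_csInf_lt hne hq
    obtain ⟨C, hC, hT⟩ := hs.2
    exact removal hd hs.1 hsq le_rfl (by simpa using hsq) hT
  have h2 : ∀ ε : ℝ, 0 < ε → ∃ C : ℝ, 0 < C ∧ Tubes (d + 1) (sInf S) ε C := by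
    intro ε hε
    have hq0 : 0 < sInf S := by linarith
    obtain ⟨C, hC, hT⟩ := h1 (sInf S + ε * sInf S / (d + 1)) (by
      have : 0 < ε * sInf S / ((d : ℝ) + 1) := by positivity
      linarith)
    have hq1 : 0 < sInf S + ε * sInf S / ((d : ℝ) + 1) := by positivity
    obtain ⟨K, hK, hE⟩ :=
      Pool.Agent.Y254.EL.euL_of_euF (d := d) hq0 (by positivity : 0 < ε * sInf S)
      (C := C ^ (sInf S + ε * sInf S / ((d : ℝ) + 1))) (by positivity) (by
        intro δ hδ hδ1 ι _ a e he hsep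
        have h2 := int_of_tubes (by omega) hq1 hC hT δ hδ hδ1 ι a e he hsep
        rw [zero_mul, neg_zero, Real.rpow_zero, one_mul] at h2
        exact h2)
    refine ⟨(K + 1) ^ (1 / sInf S), by positivity,
      tubes_of_int (by omega) hq0 (by positivity) ?_⟩
    intro δ hδ hδ1 ι _ a e he hsep
    refine (hE δ hδ hδ1 ι a e he hsep).trans (ENNReal.ofReal_le_ofReal ?_)
    gcongr
    linarith
  have h3 : ∀ q γ : ℝ, 1 + 1 / (d : ℝ) ≤ q → q < sInf S → 0 ≤ γ →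
      γ < (sInf S - q) / (7 * ((d : ℝ) + 1) * q) → ∀ C : ℝ, ¬ Tubes (d + 1) q γ C := by
    intro q γ hq hqS hγ hγq C hT
    have hq0 : 0 < q := by linarith
    rw [lt_div_iff₀ (by positivity)] at hγq
    have h4 : q + 7 * ((d : ℝ) + 1) * (γ * q) < sInf S := by nlinarith
    obtain ⟨x, hx1, hx2⟩ := exists_between h4
    have h5 : 0 ≤ 7 * ((d : ℝ) + 1) * (γ * q) := by positivity
    have h6 := removal hd hq (by linarith : q < x) hγ (by linarith) hT
    exact absurd (csInf_le hbd ⟨by linarith, h6⟩) (not_le.2 hx2)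
  have h4 : ∀ q γ : ℝ, 1 + 1 / (d : ℝ) ≤ q → 0 ≤ γ →
      q + 7 * ((d : ℝ) + 1) * (γ * q + ((d : ℝ) * (q - 1) - 1)) < sInf S →
      ∀ C : ℝ, ¬ FullTubes (d + 1) q γ C := by
    intro q γ hq hγ hlt C hT
    have hq0 : 0 < q := by linarith
    obtain ⟨x, hx1, hx2⟩ := exists_between hlt
    obtain ⟨C', hC', hF⟩ := full_removal hd hq hγ hx1 hT
    have h5 : 0 ≤ (d : ℝ) * (q - 1) - 1 := by
      have h6 : (d : ℝ) * (1 / d) ≤ d * (q - 1) := by
        apply mul_le_mul_of_nonneg_left _ hd0.le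
        linarith
      have h7 : (d : ℝ) * (1 / d) = 1 := by field_simp
      linarith
    have h8 : 0 ≤ 7 * ((d : ℝ) + 1) * (γ * q + ((d : ℝ) * (q - 1) - 1)) := by positivity
    exact absurd (csInf_le hbd ⟨by linarith, _, Real.rpow_pos_of_pos hC' _,
      tubes_of_euF (by omega) (by linarith : 0 < x) hC' hF⟩) (not_le.2 hx2)
  have hful : ∀ q γ C : ℝ, Tubes (d + 1) q γ C → FullTubes (d + 1) q γ C :=
    fun q γ C h δ hδ hδ1 ι _ a e he hsep _ => h δ hδ hδ1 ι a e he hsep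
  refine ⟨sInf S, hlow, ?_, h1, h2, h3, h4, ?_⟩
  · refine hup.trans (le_of_eq ?_)
    field_simp
  · tfae_have 1 → 2 := by
      intro h
      refine le_antisymm ?_ hlow
      by_contra hcon
      rw [not_le] at hcon
      obtain ⟨x, hx1, hx2⟩ := exists_between hcon
      exact absurd (csInf_le hbd ⟨hx1.le, h x hx1⟩) (not_le.2 hx2)
    tfae_have 2 → 1 := by
      intro h q hq
      rw [← h] at hq
      exact h1 q hq
    tfae_have 1 → 3 := by
      intro h q hq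
      obtain ⟨C, hC, hT⟩ := h q hq
      exact ⟨C, hC, hful _ _ _ hT⟩
    tfae_have 2 → 4 := by
      intro h ε hε
      obtain ⟨C, hC, hT⟩ := h2 ε hε
      rw [h] at hT
      exact ⟨C, hC, hful _ _ _ hT⟩
    tfae_have 3 → 2 := by
      intro h
      refine le_antisymm ?_ hlow
      by_contra hcon
      rw [not_le] at hcon
      set x : ℝ := sInf S - (1 + 1 / (d : ℝ)) with hx
      have hx0 : 0 < x := by linarith
      set s : ℝ := x / (2 * (1 + 7 * ((d : ℝ) + 1) * d)) with hs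
      have hs0 : 0 < s := by positivity
      have hsx : s * (2 * (1 + 7 * ((d : ℝ) + 1) * d)) = x := by
        rw [hs]
        field_simp
      obtain ⟨C, hC, hT⟩ := h (1 + 1 / (d : ℝ) + s) (by linarith)
      refine h4 (1 + 1 / (d : ℝ) + s) 0 (by linarith) le_rfl ?_ C hT
      have e5 : (d : ℝ) * (1 + 1 / (d : ℝ) + s - 1) - 1 = d * s := by field_simp; ring
      rw [e5, zero_mul, zero_add]
      nlinarith
    tfae_have 4 → 2 := by
      intro h
      refine le_antisymm ?_ hlow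
      by_contra hcon
      rw [not_le] at hcon
      set x : ℝ := sInf S - (1 + 1 / (d : ℝ)) with hx
      have hx0 : 0 < x := by linarith
      set ε : ℝ := x / (2 * (7 * ((d : ℝ) + 1) * (1 + 1 / (d : ℝ)))) with hε
      have hε0 : 0 < ε := by positivity
      have hεx : 7 * ((d : ℝ) + 1) * (ε * (1 + 1 / (d : ℝ))) = x / 2 := by
        rw [hε]
        field_simp
      obtain ⟨C, hC, hT⟩ := h ε hε0
      refine h4 (1 + 1 / (d : ℝ)) ε le_rfl hε0.le ?_ C hT
      have e5 : (d : ℝ) * (1 + 1 / (d : ℝ) - 1) - 1 = 0 := by field_simp; ring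
      rw [e5, add_zero, hεx]
      linarith
    tfae_finish

end Pool.Agent.Results.MP_850839_an.GrowthDichotomy
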