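import Pool.Agent.U515.CL.Examples

set_option autoImplicit false

/-!
# MP_850839: the tube inequality for tubes whose position is an arbitrary function of one function of
the direction

Work in `ℝ^n = ℝ^d × ℝ`, `n = d + 1 ≥ 3`, with its Euclidean norm (`Space d`).  The axis of a tube with
direction `dir v`, i.e. parallel to `(v, 1)`, meets the hyperplane of height `0` in a point `(β, 0)`: `v`
is the slope and `β` the position of the tube.  The centre has the height `s`, `|s| ≤ S`.

Let `ψ : ℝ^d → ℝ`.  We consider families of `δ`-tubes with `δ`-separated directions for which the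
position depends, up to `K δ`, only on `ψ (v)`, up to `δ`: `|β - F ⌊ψ (v) / δ⌋| ≤ K δ`.  The function
`F : ℤ → ℝ^d` is completely arbitrary.  For `n = 2` and `ψ (v) = v` these are all families, and the
inequality is Córdoba's theorem; in higher dimensions such a family consists of about `1/δ` bushes with
arbitrary vertices, whose directions fill layers `{j δ ≤ ψ < (j + 1) δ}` (for `ψ (v) = |v|`: light
cones).

The inequality of the problem holds for these families for all `q > n/(n-1)`, without any loss, if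

1. along every direction `ψ` is convex on all parallel lines or concave on all parallel lines, and `ψ`
  is steep at the slopes of the tubes (it has a directional derivative at least `λ` in one direction
  near the slope);
2. in particular if `ψ` is convex and the slopes have distance from the minimum, in the sense
  `ψ (v) ≥ ψ (c) + λ` for one point `c`;
3. in particular if `ψ` is a quadratic polynomial, of any signature, with a gradient of length at least
  `λ` at the slopes (for instance `ψ (v) = v_1 v_2`).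

Idea: at height `z` two tubes with slopes `v`, `v'` of the layers `i`, `j` meet if
`v' = v + (F i - F j)/z`; so the slopes of the layer `j` met by a given tube lie on a segment, in a
direction that depends only on `i`, `j`.  By convexity this segment crosses the layer `j`
transversally, seen from one of the two tubes, and the number of the intersections is as small as for
pairs of bushes in the plane.
-/

open MeasureTheory Set ENNReal NNReal

namespace Pool.Agent.Results.MP_850839_an.OneParameterPositions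

/-- Euclidean space `ℝ^d`. -/
abbrev Vec (d : ℕ) : Type := EuclideanSpace ℝ (Fin d)

/-- Euclidean space `ℝ^{d+1}`, written as `ℝ^d × ℝ` with the Euclidean norm. -/
abbrev Space (d : ℕ) : Type := WithLp 2 (Vec d × ℝ)

/-- The closed tube of length `1` and radius `δ` with centre `a` and axis direction `e`. -/
def tube {d : ℕ} (δ : ℝ) (e a : Space d) : Set (Space d) :=
  {y | |inner ℝ (y - a) e| ≤ 1 / 2 ∧ ‖(y - a) - (inner ℝ (y - a) e : ℝ) • e‖ ≤ δ}

/-- The unit vector `(v, 1)/√(1+|v|²)`. -/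
noncomputable def dir {d : ℕ} (v : Vec d) : Space d :=
  (√(1 + ‖v‖ ^ 2))⁻¹ • WithLp.toLp 2 (v, (1:ℝ))

/-- The sum of the indicators of the `δ`-tubes with directions `dir (v i)` whose axes pass through the
points `(β i, 0)` and whose centres have height `s i`. -/
noncomputable def tubeSum {d : ℕ} {ι : Type} [Fintype ι] (δ : ℝ) (v β : ι → Vec d) (s : ι → ℝ)
    (y : Space d) : ℝ :=
  ∑ i, (tube δ (dir (v i)) (WithLp.toLp 2 (β i + s i • v i, s i))).indicator (fun _ => (1 : ℝ)) y

/-- Slopes in the unit ball, centres of height at most `S`, `δ`-separated directions, and positions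
which are, up to `K δ`, a function `F` of the integral part of `ψ (v) / δ`. -/
def OneParameter {d : ℕ} {ι : Type} (ψ : Vec d → ℝ) (F : ℤ → Vec d) (K S δ : ℝ)
    (v β : ι → Vec d) (s : ι → ℝ) : Prop :=
  (∀ i, ‖v i‖ ≤ 1) ∧ (∀ i, |s i| ≤ S) ∧ (∀ i j, i ≠ j → δ ≤ ‖dir (v i) - dir (v j)‖) ∧
    ∀ i, ‖β i - F ⌊ψ (v i) / δ⌋‖ ≤ K * δ

/-- The function has the Lipschitz constant `L` on the ball of radius `2`. -/
def Lip {d : ℕ} (L : ℝ) (ψ : Vec d → ℝ) : Prop :=
  ∀ x y, ‖x‖ ≤ 2 → ‖y‖ ≤ 2 → |ψ x - ψ y| ≤ L * ‖x - y‖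

/-- Along every direction `w` the function is convex on all lines parallel to `w`, or concave on all
lines parallel to `w`. -/
def LineSigned {d : ℕ} (ψ : Vec d → ℝ) : Prop :=
  ∀ w : Vec d, (∀ x, ConvexOn ℝ univ (fun t : ℝ => ψ (x + t • w))) ∨
    (∀ x, ConcaveOn ℝ univ (fun t : ℝ => ψ (x + t • w)))

/-- For some unit vector `e` the function grows at least at the rate `l` in the direction `e`, on
segments of length `l` that start at distance at most `l` from `x`. -/
def Steep {d : ℕ} (l : ℝ) (ψ : Vec d → ℝ) (x : Vec d) : Prop :=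
  ∃ e : Vec d, ‖e‖ = 1 ∧ ∀ y θ, ‖y - x‖ ≤ l → 0 ≤ θ → θ ≤ l → ψ y + l * θ ≤ ψ (y + θ • e)

/-- Case 1: a function with the two previous properties, steep at the slopes. -/
def General {d : ℕ} {ι : Type} (L l : ℝ) (ψ : Vec d → ℝ) (v : ι → Vec d) : Prop :=
  Lip L ψ ∧ LineSigned ψ ∧ ∀ i, Steep l ψ (v i)

/-- Case 2: a convex function, and the slopes lie at height at least `ψ c + l`. -/
def Convex {d : ℕ} {ι : Type} (L l : ℝ) (ψ : Vec d → ℝ) (v : ι → Vec d) : Prop :=
  Lip L ψ ∧ ConvexOn ℝ univ ψ ∧ ∃ c, ‖c‖ ≤ 1 ∧ ∀ i, ψ c + l ≤ ψ (v i)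

/-- Case 3: a quadratic polynomial with gradient of length at least `l` at the slopes. -/
def Quadratic {d : ℕ} {ι : Type} (L l : ℝ) (ψ : Vec d → ℝ) (v : ι → Vec d) : Prop :=
  ∃ (Q : Vec d →L[ℝ] Vec d) (b : Vec d), ‖Q‖ ≤ L ∧ ‖b‖ ≤ L ∧
    (∀ x y, inner ℝ (Q x) y = inner ℝ x (Q y)) ∧ (∀ x, ψ x = inner ℝ (Q x) x + inner ℝ b x) ∧
    ∀ i, l ≤ ‖(2 : ℝ) • Q (v i) + b‖

/-- The inequality of the problem, with the constant `C`. -/
def Bound {d : ℕ} {ι : Type} [Fintype ι] (q C δ : ℝ) (v β : ι → Vec d) (s : ι → ℝ) : Prop :=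
  eLpNorm (tubeSum δ v β s) (ENNReal.ofReal q) volume ≤
    ENNReal.ofReal (C * δ ^ ((d : ℝ) / q) * (Fintype.card ι : ℝ) ^ (1 - 1 / (q * d)))

theorem data_of {d : ℕ} {ι : Type} {ψ : Vec d → ℝ} {F : ℤ → Vec d} {K S δ L l : ℝ} {v β : ι → Vec d}
    {s : ι → ℝ} (hδ : 0 < δ) (h : OneParameter ψ F K S δ v β s) (hL : Lip L ψ)
    (hs : ∀ i, Steep l ψ (v i)) :
    Pool.Agent.U515.CL.Data ψ F v β (fun i => ⌊ψ (v i) / δ⌋) L l δ K where
  lip := hL
  hv := h.1
  reg := hs
  sep := fun i j hij => (h.2.2.1 i j hij).trans (Pool.Agent.H810R3.Tub.dir_sub_le _ _)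
  lay := by
    intro i
    have h1 := Int.floor_le (ψ (v i) / δ)
    have h2 := Int.lt_floor_add_one (ψ (v i) / δ)
    rw [le_div_iff₀ hδ] at h1
    rw [div_lt_iff₀ hδ] at h2
    rw [abs_le]
    constructor <;> nlinarith
  pos := h.2.2.2

/-- **The tube inequality in the full range, without loss, for tubes whose position is an arbitrary
function of one function of the direction.** -/
theorem result (d : ℕ) (hd : 2 ≤ d) (q : ℝ) (hq : ((d : ℝ) + 1) / d < q) (K S L l : ℝ)
    (hK : 0 ≤ K) (hS : 0 ≤ S) (hL : 0 ≤ L) (hl : 0 < l) :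
    ∃ C : ℝ, 0 < C ∧ ∀ (ψ : Vec d → ℝ) (F : ℤ → Vec d) (δ : ℝ), 0 < δ → δ < 1 →
      ∀ (ι : Type) [Fintype ι] (v β : ι → Vec d) (s : ι → ℝ), OneParameter ψ F K S δ v β s →
        General L l ψ v ∨ Convex L l ψ v ∨ Quadratic L l ψ v → Bound q C δ v β s := by
  set l2 : ℝ := min 1 (l / (4 * (L + 1))) with hl2
  set l3 : ℝ := l / (3 * L + 1) with hl3
  have hl20 : 0 < l2 := by rw [hl2]; positivity
  have hl30 : 0 < l3 := by rw [hl3]; positivity
  have e2 : l2 * (4 * (L + 1)) ≤ l := by
    have h1 : l2 ≤ l / (4 * (L + 1)) := min_le_right _ _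
    rwa [le_div_iff₀ (by positivity)] at h1
  have e3 : l3 * (3 * L + 1) ≤ l := by
    rw [hl3]
    exact le_of_eq (by field_simp)
  set S' : ℝ≥0 := ⟨S, hS⟩ with hS'
  obtain ⟨C₁, hC₁, h₁⟩ := Pool.Agent.U515.CL.tubes (d := d) hd hK hL hl S' hq
  obtain ⟨C₂, hC₂, h₂⟩ := Pool.Agent.U515.CL.tubes (d := d) hd hK hL hl20 S' hq
  obtain ⟨C₃, hC₃, h₃⟩ := Pool.Agent.U515.CL.tubes (d := d) hd hK (by positivity : 0 ≤ 5 * L) hl30 S' hq
  refine ⟨C₁ + C₂ + C₃, by positivity, ?_⟩
  intro ψ F δ hδ hδ1 ι _ v β s hO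
  have mono : ∀ C, C ≤ C₁ + C₂ + C₃ → Bound q C δ v β s → Bound q (C₁ + C₂ + C₃) δ v β s := by
    intro C hC hB
    refine le_trans hB ?_
    apply ENNReal.ofReal_le_ofReal
    gcongr
  rintro (h | h | h)
  · obtain ⟨hlip, hsgn, hst⟩ := h
    apply mono C₁ (by linarith)
    exact h₁ ψ hsgn F δ hδ hδ1 ι v β s _ (data_of hδ hO hlip hst) hO.2.1
  · obtain ⟨hlip, hconv, c, hc, hcv⟩ := h
    apply mono C₂ (by linarith)
    have hst : ∀ i, Steep l2 ψ (v i) := fun i =>
      Pool.Agent.U515.CL.steep_convex (Pool.Agent.U515.CL.dir_convex hconv) hconv hL hl20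
        (min_le_left _ _) e2 hlip hc (hO.1 i) (hcv i)
    exact h₂ ψ (Pool.Agent.U515.CL.dir_convex hconv) F δ hδ hδ1 ι v β s _ (data_of hδ hO hlip hst)
      hO.2.1
  · obtain ⟨Q, b, hQ, hb, hsym, hψ, hg'⟩ := h
    have hadj : ContinuousLinearMap.adjoint Q = Q := by
      refine (ContinuousLinearMap.eq_adjoint_iff Q Q).2 ?_ |>.symm
      exact hsym
    have hg : ∀ i, l ≤ ‖Pool.Agent.U515.CL.grad Q b (v i)‖ := by
      intro i
      unfold Pool.Agent.U515.CL.grad
      rw [hadj, ← two_smul ℝ (Q (v i))]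
      exact hg' i
    apply mono C₃ (by linarith)
    have hψ' : ψ = Pool.Agent.U515.CL.quad Q b := funext hψ
    have hlip : Lip (5 * L) ψ := by
      rw [hψ']
      exact Pool.Agent.U515.CL.quad_lip Q b hQ hb
    have hst : ∀ i, Steep l3 ψ (v i) := by
      intro i
      rw [hψ']
      exact Pool.Agent.U515.CL.steep_quad Q b hQ hL hl30 e3 (hg i)
    have hdir : LineSigned ψ := by
      rw [hψ']
      exact Pool.Agent.U515.CL.dir_quad Q b
    exact h₃ ψ hdir F δ hδ hδ1 ι v β s _ (data_of hδ hO hlip hst) hO.2.1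

end Pool.Agent.Results.MP_850839_an.OneParameterPositions
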