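import Pool.Agent.U530.KS.Final2

set_option autoImplicit false

/-!
# MP_850839: the exact order of the constants for reducible families, in all parameters

Work in `ℝ^n = ℝ^d × ℝ`, `n = d + 1`.  The axis of a tube has the direction `(v, 1)`, where `v` is its
*slope*, and meets the hyperplane of height `0` in the point `(β, 0)`, where `β` is its *position*; the
height of its centre is `s`.  All tubes have length `1` and radius `δ`; `N` is the number of tubes.

*Product families* (`IsProduct`): for all `j` the `j`-th coordinate of the position depends only on the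
`j`-th coordinate of the slope (where slopes count as equal if they differ by at most `δ`).
*Reducible families* (`Reducible`): all families in the plane are reducible; in higher dimensions a
family is reducible if, in some orthonormal basis of `ℝ^d`, the first coordinates of the positions of any
two tubes agree up to `K δ` as soon as the first coordinates of their slopes agree up to `δ`, and if the
subfamilies of the tubes whose first coordinate of the slope lies in an interval `[c δ, (c + 1) δ)` are,
after forgetting the first coordinate, reducible in one dimension less. Product families are reducible,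
in particular *bushes*, i.e. families of tubes with the position `0`.

Write `q₀ = n/(n-1) = (d+1)/d` and `Λ(q,N) = 1 + log N / (1 + (q - q₀) log N)`, which is, up to a factor
`2`, the smaller one of `1 + log N` and `1 + 1/(q - q₀)`.

1. The best constants `C_q` in the inequality of the problem, for reducible families and for product
   families, have the exact order `1 + (q - q₀)^(-(n-1)/n)`, uniformly for all `q > q₀`.
2. In terms of the number `N` of tubes: for `q ≥ q₀` the best constant has the exact order
   `Λ(q,N)^(1/q)`, uniformly in `q`, `N` and `δ`. It is attained by bushes. In particular, at the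
   endpoint `q = q₀` the sharp constant is `(1 + log N)^((n-1)/n)`.
3. For `1 ≤ q ≤ q₀` the integral of the `q`-th power of the sum of the indicators is at most
   `C (1 + log N)^((n-1)(q-1)) δ^(n-1) N`, and the measure of the union of the tubes is at least
   `c δ^(n-1) N / (1 + log N)^(n-1)`. Both are attained, by product families of `N` tubes for all `δ` and
   all `N ≤ c δ^(1-n)`.
-/

open MeasureTheory Set ENNReal NNReal Pool.Agent.U530.KS

namespace Pool.Agent.Results.MP_850839_an.ReducibleExact

/-- The constant of the inequality of the problem in terms of `q`, up to constant factors: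
`1 + (q - q₀)^(-(n-1)/n)`. -/
noncomputable def order (d : ℕ) (q : ℝ) : ℝ := 1 + (q - ((d : ℝ) + 1) / d) ^ (-((d : ℝ) / (d + 1)))

/-- The upper bounds, with the constant `C`, for the reducible families (with the constant `K`) of tubes
whose centres have heights at most `S`. -/
def UpperBounds (d : ℕ) (K S : ℝ≥0) (C : ℝ) : Prop :=
  ∀ δ : ℝ, 0 < δ → δ < 1 → ∀ (ι : Type) [Fintype ι] (v β : ι → Vec d) (s : ι → ℝ),
    Admissible S δ v s → Reducible K δ d univ v β →
    (∀ q : ℝ, ((d : ℝ) + 1) / d < q → TubeInequality q (C * order d q) δ v β s) ∧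
    (∀ q : ℝ, ((d : ℝ) + 1) / d ≤ q →
      TubeInequality q (C * Lam d q (Fintype.card ι) ^ (1 / q)) δ v β s) ∧
    (∀ q : ℝ, 1 ≤ q → q ≤ ((d : ℝ) + 1) / d → moment q δ v β s ≤
      ENNReal.ofReal (C * (1 + Real.log (Fintype.card ι)) ^ (d * (q - 1)) *
        (δ ^ d * (Fintype.card ι : ℝ)))) ∧
    ENNReal.ofReal (δ ^ d * (Fintype.card ι : ℝ) / (C * (1 + Real.log (Fintype.card ι)) ^ d)) ≤
      volume (tubeUnion δ v β s)

/-- The inequality of the problem, for the exponent `q`, holds with the constant `C` for all product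
families. -/
def ValidConstant (d : ℕ) (q C : ℝ) : Prop :=
  ∀ δ : ℝ, 0 < δ → δ < 1 → ∀ (ι : Type) [Fintype ι] (v β : ι → Vec d) (s : ι → ℝ),
    Admissible 1 δ v s → IsProduct δ v β → TubeInequality q C δ v β s

/-- For all `δ` and all `N ≤ c δ^(1-n)` there is a bush of `N` tubes which attains, up to the factor `c`,
the upper bound in terms of `q` and `N`, for all `q ≥ q₀`. -/
def BushesSharp (d : ℕ) (c : ℝ) : Prop :=
  ∀ (δ : ℝ) (N : ℕ), 0 < δ → 1 ≤ N → (N : ℝ) * (64 * d * δ) ^ d ≤ 1 →
    ∃ v : Fin N → Vec d, Admissible 1 δ v (fun _ => 1 / 8) ∧ IsProduct δ v (fun _ => 0) ∧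
      ∀ q : ℝ, ((d : ℝ) + 1) / d ≤ q →
        ENNReal.ofReal (c * Lam d q N ^ (1 / q) * δ ^ ((d : ℝ) / q) * (N : ℝ) ^ (1 - 1 / (q * d))) ≤
          eLpNorm (tubeSum δ v (fun _ => 0) (fun _ => 1 / 8)) (ENNReal.ofReal q) volume

/-- For all `δ` and all `N ≤ c δ^(1-n)` there is a product family of `N` tubes which attains, up to
constants, the bounds for `1 ≤ q ≤ q₀` and for the union. -/
def ProductsSharp (d : ℕ) (C c : ℝ) : Prop :=
  ∀ (δ : ℝ) (N : ℕ), 0 < δ → 1 ≤ N → (N : ℝ) * (64 * d * δ) ^ d ≤ 1 →
    ∃ v β : Fin N → Vec d, Admissible 1 δ v (fun _ => 1) ∧ IsProduct δ v β ∧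
      (∀ q : ℝ, 1 ≤ q → ENNReal.ofReal (c ^ q * (1 + Real.log N) ^ (d * (q - 1)) * (δ ^ d * N)) ≤
        moment q δ v β (fun _ => 1)) ∧
      volume (tubeUnion δ v β (fun _ => 1)) ≤
        ENNReal.ofReal (C * (δ ^ d * N) / (1 + Real.log N) ^ d)

/-- **The exact order of the constants for reducible families.** -/
theorem result (d : ℕ) (hd : 1 ≤ d) :
    (∀ K S : ℝ≥0, ∃ C : ℝ, 0 < C ∧ UpperBounds d K S C) ∧
    (∃ c : ℝ, 0 < c ∧ ∀ q : ℝ, ((d : ℝ) + 1) / d < q → ∀ C : ℝ, ValidConstant d q C →
      c * order d q ≤ C) ∧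
    (∃ c : ℝ, 0 < c ∧ BushesSharp d c) ∧
    (∃ C c : ℝ, 0 < C ∧ 0 < c ∧ ProductsSharp d C c) ∧
    (∀ K δ : ℝ, 0 ≤ K → 0 ≤ δ → ∀ (ι : Type) (v β : ι → Vec d), IsProduct δ v β →
      Reducible K δ d univ v β) ∧
    (∀ q N : ℝ, ((d : ℝ) + 1) / d < q → 1 ≤ N →
      Lam d q N ≤ min (1 + Real.log N) (1 + 1 / (q - ((d : ℝ) + 1) / d)) ∧
      min (1 + Real.log N) (1 + 1 / (q - ((d : ℝ) + 1) / d)) ≤ 2 * Lam d q N) := by
  refine ⟨?_, blowup_all d hd, ?_, sparse_moments d hd, ?_, ?_⟩
  · intro K S
    obtain ⟨C1, hC1, h1⟩ := upper_above d hd K S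
    obtain ⟨C2, hC2, h2⟩ := tube_lam d hd K S
    obtain ⟨C3, hC3, h3⟩ := below_lam d hd K S
    have hd0 : (0 : ℝ) < d := by exact_mod_cast hd
    refine ⟨C1 + C2 + C3, by positivity, ?_⟩
    intro δ hδ hδ1 ι _ v β s hA hR
    have hlog : 0 ≤ 1 + Real.log (Fintype.card ι : ℝ) := by
      have := Real.log_natCast_nonneg (Fintype.card ι)
      linarith
    refine ⟨?_, ?_, ?_, ?_⟩
    · intro q hq
      have hx : 0 < q - ((d : ℝ) + 1) / d := by linarith
      refine (h1 q δ hq hδ hδ1 ι v β s hA hR).trans (ENNReal.ofReal_le_ofReal ?_)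
      unfold order
      gcongr
      linarith
    · intro q hq
      refine (h2 q δ hq hδ hδ1 ι v β s hA hR).trans (ENNReal.ofReal_le_ofReal ?_)
      have hL : 0 ≤ Lam d q (Fintype.card ι) := by
        have h0 := Real.log_natCast_nonneg (Fintype.card ι)
        have h4 : 0 ≤ (q - ((d : ℝ) + 1) / d) * Real.log (Fintype.card ι) := mul_nonneg (by linarith) h0
        unfold Lam
        positivity
      gcongr
      linarith
    · intro q hq hq2
      refine ((h3 δ hδ hδ1 ι v β s hA hR).1 q hq hq2).trans (ENNReal.ofReal_le_ofReal ?_)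
      gcongr
      linarith
    · refine le_trans (ENNReal.ofReal_le_ofReal ?_) (h3 δ hδ hδ1 ι v β s hA hR).2
      rcases Nat.eq_zero_or_pos (Fintype.card ι) with hz | hpos
      · rw [hz]; simp
      · have h5 : 0 < 1 + Real.log (Fintype.card ι : ℝ) := by
          have := Real.log_natCast_nonneg (Fintype.card ι)
          linarith
        apply div_le_div_of_nonneg_left (by positivity) (by positivity)
        gcongr
        linarith
  · obtain ⟨c, hc, h⟩ := bush_norm d hd
    refine ⟨c, hc, ?_⟩
    intro δ N hδ hN hNδ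
    obtain ⟨v, h1, h2⟩ := h δ N hδ hN hNδ
    exact ⟨v, h1, fun _ _ _ _ => rfl, h2⟩
  · intro K δ hK hδ ι v β h
    exact h.reducible hK hδ d univ v β
  · intro q N hq hN
    exact ⟨le_min (Lam_le_log hq.le hN) (Lam_le_inv hq hN), min_le_Lam hq hN⟩

end Pool.Agent.Results.MP_850839_an.ReducibleExact
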